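import Pool.Agent.H57.SO.Defs
import Pool.Agent.H50.EQD.RED

/-!
# Several orbits of vertices: realization and reduction
-/

set_option autoImplicit false

namespace Pool.Agent.H50.SO

open Pool.Agent.H1.NP Pool.Agent.H1.PNP
open Pool.Agent.H68.OQP hiding eN eE
open Pool.Agent.H68.NPH hiding prs eN
open Function
open Pool.Agent.H68.BP (ph cV cC eE eN eZ code code_eq CSP csp_code csp_true code_of_cV ph_vals
  strOf polyOn_numsR lgF Sig Str IsHom)
open Pool.Agent.H68.BT (Wg Cv Corr rowG rowG_length rowG_map rowG_mem rowG_getD csp_nil)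
open Pool.Agent.H53.GC
open Pool.Agent.H57.EQ (Tour)
open Pool.Agent.H57.SO
open Pool.Agent.H50.EQ (polyOn_red red_code red_bad)
open Pool.Agent.H50.EQD (hom_iff)

/-- realization -/
theorem realize {σ : Sig} {V S X : Type} [LinearOrder V] {P : Pal S X} {𝔸 : Str σ V} {M : ℕ}
    {c : V → V → S ⊕ X} (hs : Stp P 𝔸 M c) {W : Type} [Finite W] (q : W → W → S ⊕ X)
    (hq : ∀ s : Fin M → W, ∃ v : Fin M → V, ∀ a b, c (v a) (v b) = q (s a) (s b)) :
    ∃ ψ : W → V, ∀ u w, c (ψ u) (ψ w) = q u w := by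
  classical
  have h3 := hs.three
  have hc := hs.col
  -- pairs
  have hpair : ∀ u w z : W, ∃ a b d : V, c a b = q u w ∧ c b a = q w u ∧ c a d = q u z ∧
      c b d = q w z ∧ c d a = q z u ∧ c d b = q z w ∧ c a a = q u u ∧ c b b = q w w := by
    intro u w z
    obtain ⟨v, hv⟩ := hq (fun i => if (i : ℕ) = 0 then u else if (i : ℕ) = 1 then w else z)
    refine ⟨v ⟨0, by omega⟩, v ⟨1, by omega⟩, v ⟨2, by omega⟩, ?_, ?_, ?_, ?_, ?_, ?_, ?_, ?_⟩ <;>
      · rw [hv]
        simp
  have hrefl : ∀ u, ∃ s, q u u = Sum.inl s := by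
    intro u
    obtain ⟨a, b, d, -, -, -, -, -, -, h, -⟩ := hpair u u u
    rw [← h]
    exact (hc.eq_iff a a).2 rfl
  have hsw : ∀ u w t, q u w = Sum.inr t → q w u = Sum.inr (P.rv t) := by
    intro u w t h
    obtain ⟨a, b, d, h1, h2, -⟩ := hpair u w w
    rw [← h1] at h
    rw [← h2]
    exact hc.swap a b t h
  have hcong : ∀ u w z, (∃ s, q u w = Sum.inl s) → q u z = q w z ∧ q z u = q z w := by
    intro u w z h
    obtain ⟨a, b, d, h1, h2, h3, h4, h5, h6, -⟩ := hpair u w z
    rw [← h1] at h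
    have h7 := (hc.eq_iff a b).1 h
    rw [← h3, ← h4, ← h5, ← h6, h7]
    exact ⟨rfl, rfl⟩
  have hsym : ∀ u w, (∃ s, q u w = Sum.inl s) → ∃ s, q w u = Sum.inl s := by
    intro u w h
    rw [← (hcong u w u h).1]
    exact hrefl u
  have htr : ∀ u w z, (∃ s, q u w = Sum.inl s) → (∃ s, q w z = Sum.inl s) →
      ∃ s, q u z = Sum.inl s := by
    intro u w z h1 h2
    rw [(hcong u w z h1).1]
    exact h2
  let St : Setoid W := ⟨fun u w => ∃ s, q u w = Sum.inl s, hrefl, fun {u w} h => hsym u w h,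
    fun {u w z} h1 h2 => htr u w z h1 h2⟩
  let n := Nat.card (Quotient St)
  let e : Quotient St ≃ Fin n := Finite.equivFin _
  let rp : Fin n → W := fun i => (e.symm i).out
  have hrp : ∀ u : W, ∃ s, q (rp (e (Quotient.mk St u))) u = Sum.inl s := by
    intro u
    have h1 : Quotient.mk St (rp (e (Quotient.mk St u))) = Quotient.mk St u := by
      show Quotient.mk St ((e.symm (e (Quotient.mk St u))).out) = _
      rw [e.symm_apply_apply]
      exact Quotient.out_eq _
    exact Quotient.exact h1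
  have hne : ∀ i j, (∃ s, q (rp i) (rp j) = Sum.inl s) → i = j := by
    intro i j h
    have h1 : Quotient.mk St (rp i) = Quotient.mk St (rp j) := Quotient.sound h
    have h2 : ∀ i, Quotient.mk St (rp i) = e.symm i := fun i => Quotient.out_eq _
    rw [h2, h2] at h1
    exact e.symm.injective h1
  let t : Fin n → S := fun i => Sum.elim id P.ls (q (rp i) (rp i))
  let d : Fin n → Fin n → X := fun i j => Sum.elim (fun s => P.fr s s) id (q (rp i) (rp j))
  have ht : ∀ i, q (rp i) (rp i) = Sum.inl (t i) := by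
    intro i
    obtain ⟨s, h⟩ := hrefl (rp i)
    simp only [t, h, Sum.elim_inl, id_eq]
  have hd : ∀ i j, i ≠ j → q (rp i) (rp j) = Sum.inr (d i j) := by
    intro i j hij
    rcases h : q (rp i) (rp j) with s | x
    · exact absurd (hne i j ⟨s, h⟩) hij
    · simp only [d, h, Sum.elim_inr, id_eq]
  obtain ⟨f, hf, hft, hfc⟩ := hs.uni n t d (by
    intro m s hm hsm hnf
    rcases Nat.eq_zero_or_pos m with h0 | hpos
    · subst h0
      exact ⟨fun i => i.elim0, fun i => i.elim0, fun i => i.elim0⟩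
    obtain ⟨v, hv⟩ := hq (fun a => rp (s ⟨min (a : ℕ) (m - 1), by omega⟩))
    have hi : ∀ i : Fin m, (⟨min (i : ℕ) (m - 1), by omega⟩ : Fin m) = i := fun i => Fin.ext (by
      have := i.2
      simp only
      omega)
    refine ⟨fun i => v ⟨i, lt_of_lt_of_le i.2 hm⟩, fun i => ?_, fun i j hij => ?_⟩
    · have h1 := hv ⟨i, lt_of_lt_of_le i.2 hm⟩ ⟨i, lt_of_lt_of_le i.2 hm⟩
      simp only [hi] at h1
      rw [h1]
      exact ht (s i)
    · have h1 := hv ⟨i, lt_of_lt_of_le i.2 hm⟩ ⟨j, lt_of_lt_of_le j.2 hm⟩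
      simp only [hi] at h1
      rw [h1]
      exact hd (s i) (s j) (hsm hij).ne)
  refine ⟨fun u => f (e (Quotient.mk St u)), fun u w => ?_⟩
  have key : ∀ i j, c (f i) (f j) = q (rp i) (rp j) := by
    intro i j
    rcases lt_trichotomy i j with h | h | h
    · rw [hfc i j h, hd i j h.ne]
    · rw [h, hft, ht]
    · have h4 := hc.swap _ _ _ (hfc j i h)
      rw [h4]
      exact (hsw _ _ _ (hd j i h.ne)).symm
  rw [key, (hcong _ _ _ (hrp u)).1, (hcong _ _ _ (hrp w)).2]

/-- correctness of the reduction -/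
theorem re1 {σ : Sig} {V S X : Type} [LinearOrder V] {P : Pal S X} {𝔸 : Str σ V} {M : ℕ}
    {c : V → V → S ⊕ X} (hs : Stp P 𝔸 M c) (n : ℕ) (𝕏 : Str σ (Fin n)) :
    (∃ f, IsHom 𝕏 𝔸 f) ↔ ∃ q : Fin n → Fin n → Ec S X,
      ∀ (s : Option (Fin σ.m)) (y : Fin (arP σ M s) → Fin n), relP 𝕏 M s y →
        FamP 𝔸 M c s (fun e => q (y e.1) (y e.2)) := by
  classical
  have h3 := hs.three
  have hc := hs.col
  constructor
  · rintro ⟨f, hf⟩
    -- the label of an element
    let k : Fin n → ℕ := fun i => ((Finset.univ.filter (fun j : Fin n => f j = f i)).min'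
      ⟨i, by simp⟩ : Fin n)
    have hk : ∀ i j, k i = k j ↔ f i = f j := by
      intro i j
      constructor
      · intro h
        have h1 : f ((Finset.univ.filter (fun j : Fin n => f j = f i)).min' ⟨i, by simp⟩) = f i :=
          (Finset.mem_filter.1 (Finset.min'_mem
            (Finset.univ.filter (fun j : Fin n => f j = f i)) _)).2
        have h2 : f ((Finset.univ.filter (fun l : Fin n => f l = f j)).min' ⟨j, by simp⟩) = f j :=
          (Finset.mem_filter.1 (Finset.min'_mem
            (Finset.univ.filter (fun l : Fin n => f l = f j)) _)).2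
        rw [← h1, ← h2]
        congr 1
        exact Fin.ext h
      · intro h
        simp only [k, h]
    refine ⟨fun i j => Sum.map id (fun t => ((t, t), decide (k i < k j))) (c (f i) (f j)),
      fun s y hr => ?_⟩
    refine ⟨fun a => k (y a), fun a b => decide (a < b), ?_, ?_, ?_, ?_⟩
    · intro x y hxy
      rcases lt_trichotomy x y with h | h | h
      · simp [h, not_lt_of_gt h]
      · exact absurd h hxy
      · simp [h, not_lt_of_gt h]
    · intro a b
      rw [hk, ← hc.eq_iff]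
      rcases h : c (f (y a)) (f (y b)) with s' | t
      · simp [h]
      · simp [h]
    · intro a b t ht
      rcases h : c (f (y a)) (f (y b)) with s' | t'
      · simp [h] at ht
      · simp only [h, Sum.map_inr, Sum.inr.injEq] at ht
        rw [← ht]
    · intro rk _
      refine ⟨fun a => f (y a), ?_, fun a b => (hk _ _).symm, fun a b t ht => ?_,
        fun a b t ht => ?_⟩
      · cases s with
        | none => trivial
        | some l => exact hf l y hr
      · rcases h : c (f (y a)) (f (y b)) with s' | t'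
        · simp only [h, Sum.map_inl, id_eq, Sum.inl.injEq] at ht
          rw [ht]
        · simp [h] at ht
      · rcases h : c (f (y a)) (f (y b)) with s' | t'
        · simp [h] at ht
        · simp only [h, Sum.map_inr, Sum.inr.injEq] at ht
          rw [← ht]
          simp
  · rintro ⟨q, hq⟩
    -- equality is an equivalence relation
    have tri : ∀ p : Fin M → Fin n, ∃ k : Fin M → ℕ,
        ∀ a b, (∃ t, q (p a) (p b) = Sum.inl t) ↔ k a = k b := by
      intro p
      obtain ⟨k, T, -, h, -⟩ := hq none p trivial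
      exact ⟨k, h⟩
    have hrefl : ∀ i, ∃ t, q i i = Sum.inl t := by
      intro i
      obtain ⟨k, hk⟩ := tri (fun _ => i)
      exact (hk ⟨0, by omega⟩ ⟨0, by omega⟩).2 rfl
    have htr : ∀ i j l, (∃ t, q i j = Sum.inl t) → (∃ t, q j l = Sum.inl t) →
        ∃ t, q i l = Sum.inl t := by
      intro i j l h1 h2
      obtain ⟨k, hk⟩ := tri (fun a => if a.1 = 0 then i else if a.1 = 1 then j else l)
      have e1 := (hk ⟨0, by omega⟩ ⟨1, by omega⟩).1 (by simpa using h1)
      have e2 := (hk ⟨1, by omega⟩ ⟨2, by omega⟩).1 (by simpa using h2)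
      have e3 := (hk ⟨0, by omega⟩ ⟨2, by omega⟩).2 (e1.trans e2)
      simpa using e3
    have hsy : ∀ i j, (∃ t, q i j = Sum.inl t) → ∃ t, q j i = Sum.inl t := by
      intro i j h1
      obtain ⟨k, hk⟩ := tri (fun a => if a.1 = 0 then i else j)
      have e1 := (hk ⟨0, by omega⟩ ⟨1, by omega⟩).1 (by simpa using h1)
      have e2 := (hk ⟨1, by omega⟩ ⟨0, by omega⟩).2 e1.symm
      simpa using e2
    -- the ranks
    let rk : Fin n → ℕ := fun i => ((Finset.univ.filter (fun j : Fin n =>
      ∃ t, q i j = Sum.inl t)).min' ⟨i, by simp [hrefl]⟩ : Fin n)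
    have hrk : ∀ i j, rk i = rk j ↔ ∃ t, q i j = Sum.inl t := by
      intro i j
      constructor
      · intro h
        have h1 : ∃ t, q i ((Finset.univ.filter (fun j : Fin n => ∃ t, q i j = Sum.inl t)).min'
          ⟨i, by simp [hrefl]⟩) = Sum.inl t := (Finset.mem_filter.1 (Finset.min'_mem
            (Finset.univ.filter (fun j : Fin n => ∃ t, q i j = Sum.inl t)) _)).2
        have h2 : ∃ t, q j ((Finset.univ.filter (fun l : Fin n => ∃ t, q j l = Sum.inl t)).min'
          ⟨j, by simp [hrefl]⟩) = Sum.inl t := (Finset.mem_filter.1 (Finset.min'_mem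
            (Finset.univ.filter (fun l : Fin n => ∃ t, q j l = Sum.inl t)) _)).2
        have h4 : ((Finset.univ.filter (fun j : Fin n => ∃ t, q i j = Sum.inl t)).min'
          ⟨i, by simp [hrefl]⟩) = ((Finset.univ.filter (fun l : Fin n =>
            ∃ t, q j l = Sum.inl t)).min' ⟨j, by simp [hrefl]⟩) := Fin.ext h
        rw [← h4] at h2
        exact htr _ _ _ h1 (hsy _ _ h2)
      · intro h
        have h1 : (Finset.univ.filter (fun l : Fin n => ∃ t, q i l = Sum.inl t)) =
            (Finset.univ.filter (fun l : Fin n => ∃ t, q j l = Sum.inl t)) := by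
          ext l
          simp only [Finset.mem_filter, Finset.mem_univ, true_and]
          exact ⟨fun h' => htr _ _ _ (hsy _ _ h) h', fun h' => htr _ _ _ h h'⟩
        simp only [rk, h1]
    -- the tuples
    have key : ∀ (s : Option (Fin σ.m)) (y : Fin (arP σ M s) → Fin n), relP 𝕏 M s y →
        ∃ x : Fin (arP σ M s) → V, relP 𝔸 M s x ∧ ∀ a b, c (x a) (x b) =
          Sum.map id (fun t : (X × X) × Bool => if rk (y a) < rk (y b) then t.1.1 else t.1.2)
            (q (y a) (y b)) := by
      intro s y hr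
      obtain ⟨k, T, -, h1, -, h2⟩ := hq s y hr
      obtain ⟨x, hx, hx1, hx2, hx3⟩ := h2 (fun a => rk (y a)) (fun a b => by rw [hrk, h1])
      refine ⟨x, hx, fun a b => ?_⟩
      rcases hqab : q (y a) (y b) with s' | t
      · rw [Sum.map_inl, id_eq]
        exact hx2 a b s' hqab
      · rw [Sum.map_inr]
        exact hx3 a b t hqab
    obtain ⟨γ, hγ⟩ := realize hs
      (fun i j => Sum.map id (fun t : (X × X) × Bool => if rk i < rk j then t.1.1 else t.1.2)
        (q i j)) (fun p => by
        obtain ⟨x, -, hx⟩ := key none p trivial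
        exact ⟨x, hx⟩)
    refine ⟨γ, fun l z hz => ?_⟩
    obtain ⟨x, hx1, hx2⟩ := key (some l) z hz
    refine hs.tyi l x (fun i => γ (z i)) hx1 (fun a b => ?_)
    rw [hγ]
    exact (hx2 a b).symm

theorem red {σ : Sig} {V S X : Type} [LinearOrder V] {P : Pal S X} {𝔸 : Str σ V} {M : ℕ}
    {c : V → V → S ⊕ X} (hs : Stp P 𝔸 M c) :
    N793a5b8e.ManyOneReducible (CSP 𝔸) (CSP (tpl 𝔸 M c)) := by
  refine manyOne (polyOn_red (σ := σ) (M := M))
    (Q := fun l => CSP (tpl 𝔸 M c) (unary l) = true) (fun p => Iff.rfl) (fun x => ?_)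
  by_cases h : cV.tv (ph (σ.width + 1) x) []
  · obtain ⟨n, Ls, e1, rfl⟩ := code_of_cV h
    obtain ⟨L', e2, e3, e4⟩ := red_code (M := M) (n := n) e1
    rw [csp_code 𝔸 e1, e3, csp_code (tpl 𝔸 M c) e2, re1 hs n (strOf σ n Ls)]
    exact hom_iff (FamP 𝔸 M c) e4
  · constructor
    · intro hx
      obtain ⟨n, Ls, h1, rfl⟩ := csp_true 𝔸 hx
      obtain ⟨M', hM, h0, -, -, h3, -⟩ := ph_vals (n := n) h1
      refine absurd ?_ h
      rw [hM]
      simp only [cV, tv_and, tv_le, tv_eq, Ex.val, h0, h3]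
      exact ⟨le_rfl, trivial⟩
    · intro hx
      rw [red_bad h] at hx
      exact absurd hx (csp_nil _)

/-- Structures with the same finite preimages have the same constraint satisfaction problem. -/
theorem csp_congr {σ : Sig} {V V' : Type} {𝔸 : Str σ V} {𝔸' : Str σ V'}
    (h : ∀ (n : ℕ) (𝕏 : Str σ (Fin n)), (∃ f, IsHom 𝕏 𝔸 f) ↔ ∃ f, IsHom 𝕏 𝔸' f) :
    CSP 𝔸 = CSP 𝔸' := by
  funext x
  have key : CSP 𝔸 x = true ↔ CSP 𝔸' x = true := by
    constructor
    · intro hx
      obtain ⟨n, Ls, h1, rfl⟩ := csp_true 𝔸 hx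
      rw [csp_code 𝔸 h1] at hx
      rw [csp_code 𝔸' h1]
      exact (h n _).1 hx
    · intro hx
      obtain ⟨n, Ls, h1, rfl⟩ := csp_true 𝔸' hx
      rw [csp_code 𝔸' h1] at hx
      rw [csp_code 𝔸 h1]
      exact (h n _).2 hx
  cases h1 : CSP 𝔸 x <;> cases h2 : CSP 𝔸' x
  · rfl
  · rw [h1, h2] at key
    exact absurd (key.2 rfl) (by simp)
  · rw [h1, h2] at key
    exact absurd (key.1 rfl) (by simp)
  · rfl

end Pool.Agent.H50.SO
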