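import Pool.Agent.H57.SO.Targets

/-!
# Several orbits of vertices: cyclic actions on the types
-/

set_option autoImplicit false

namespace Pool.Agent.H50.SO

open Pool.Agent.H68.BP Pool.Agent.H58.SF Pool.Agent.H53.GC
open Pool.Agent.H57.EQ (Cx T_CYF)
open Pool.Agent.H57.SO
open Function

/-! ### The clone of the actions on types -/

section clone

variable {V S X : Type} {σ : Sig} {P : Pal S X} {𝔸 : Str σ V} {c : V → V → S ⊕ X}

theorem cx_trans {I J W : Type} {G : I → W → V} {ψ : J → W → V} {φ : W → V}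
    (h1 : ∀ j, Cx 𝔸 G (ψ j)) (h2 : Cx 𝔸 ψ φ) : Cx 𝔸 G φ :=
  fun l z hz => h2 l z fun j => h1 j l z hz

theorem sbn_proj {I : Type} (i : I) : Sbn P 𝔸 c (fun t : I → S => t i) :=
  fun _ _ G => ⟨G i, fun _ _ hz => hz i, fun _ => rfl⟩

theorem sbn_comp {I J : Type} {τ : (J → S) → S} {q : J → (I → S) → S} (h : Sbn P 𝔸 c τ)
    (hq : ∀ j, Sbn P 𝔸 c (q j)) : Sbn P 𝔸 c (fun t => τ (fun j => q j t)) := by
  intro W _ G
  choose ψ h1 h2 using fun j => hq j W G
  obtain ⟨φ, h3, h4⟩ := h W ψ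
  refine ⟨φ, cx_trans h1 h3, fun w => ?_⟩
  rw [h4 w]
  exact congrArg τ (funext fun j => h2 j w)

end clone

/-! ### A factor with two classes -/

/-- a finite set of functions with two classes is separated by the values in one point, given the
values in some other points -/
theorem separate {S D : Type} [Finite D] (B : Set (D → S)) (ξ : (D → S) → Fin 2)
    {f0 f1 : D → S} (h0 : f0 ∈ B) (h1 : f1 ∈ B) (e0 : ξ f0 = 0) (e1 : ξ f1 = 1) :
    ∃ (J : Set D) (a : D → S) (z : D),
      (∀ b : Fin 2, ∃ f ∈ B, (∀ x ∈ J, f x = a x) ∧ ξ f = b) ∧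
      ∀ f g, f ∈ B → g ∈ B → (∀ x ∈ J, f x = a x) → (∀ x ∈ J, g x = a x) → f z = g z →
        ξ f = ξ g := by
  classical
  let 𝒥 : Set (Set D) := {J | ∃ f ∈ B, ∃ g ∈ B, ξ f = 0 ∧ ξ g = 1 ∧ ∀ x ∈ J, f x = g x}
  have hne : 𝒥.Nonempty := ⟨∅, f0, h0, f1, h1, e0, e1, fun x hx => hx.elim⟩
  obtain ⟨J, hJ⟩ := (Set.toFinite 𝒥).exists_maximal hne
  obtain ⟨⟨f, hf, g, hg, ef, eg, hfg⟩, hmax⟩ := hJ
  have hz : ∃ z, z ∉ J := by
    by_contra hcon
    push Not at hcon
    have h2 : f = g := funext fun x => hfg x (hcon x)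
    rw [h2, eg] at ef
    exact absurd ef (by decide)
  obtain ⟨z, hz⟩ := hz
  refine ⟨J, f, z, fun b => ?_, ?_⟩
  · fin_cases b
    · exact ⟨f, hf, fun x _ => rfl, ef⟩
    · exact ⟨g, hg, fun x hx => (hfg x hx).symm, eg⟩
  · intro f' g' hf' hg' h2 h3 h4
    by_contra hne'
    have h5 : insert z J ∈ 𝒥 := by
      have key : ∀ f' g' : D → S, f' ∈ B → g' ∈ B → (∀ x ∈ J, f' x = f x) →
          (∀ x ∈ J, g' x = f x) → f' z = g' z → ξ f' = 0 → ξ g' = 1 → insert z J ∈ 𝒥 := by
        intro f' g' hf' hg' h2 h3 h4 h5 h6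
        refine ⟨f', hf', g', hg', h5, h6, fun x hx => ?_⟩
        rcases hx with rfl | hx
        · exact h4
        · exact (h2 x hx).trans (h3 x hx).symm
      rcases (show ξ f' = 0 ∧ ξ g' = 1 ∨ ξ f' = 1 ∧ ξ g' = 0 by omega) with ⟨h6, h7⟩ | ⟨h6, h7⟩
      · exact key f' g' hf' hg' h2 h3 h4 h6 h7
      · exact key g' f' hg' hf' h3 h2 h4.symm h7 h6
    exact hz (hmax h5 (Set.subset_insert z J) (Set.mem_insert z J))

/-- a factor of the types with two classes on which the idempotent actions are projections -/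
structure Fac {V S X : Type} {σ : Sig} (P : Pal S X) (𝔸 : Str σ V) (c : V → V → S ⊕ X)
    (U : Fin 2 → Set S) : Prop where
  disj : ∀ b b' s, s ∈ U b → s ∈ U b' → b = b'
  ne : ∀ b, (U b).Nonempty
  acts : ∀ (n : ℕ) (τ : (Fin n → S) → S), Sbn P 𝔸 c τ → (∀ s, τ (fun _ => s) = s) →
    ∃ i, ∀ (u : Fin n → S) (b : Fin n → Fin 2), (∀ j, u j ∈ U (b j)) → τ u ∈ U (b i)

section rel

variable {V S X : Type} {σ : Sig}

/-- the relations which define the clone of the actions -/
def RS (P : Pal S X) (𝔸 : Str σ V) (c : V → V → S ⊕ X) (p : ℕ) :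
    Unit ⊕ ((ZMod p → S) × (ZMod p → S)) → ((ZMod p → S) → S) → Prop
  | Sum.inl _, q => Sbn P 𝔸 c q
  | Sum.inr e, q => q e.1 = q e.2

variable {P : Pal S X} {𝔸 : Str σ V} {c : V → V → S ⊕ X} {p : ℕ}

theorem fam_of {I : Type} {τ : (I → S) → S} (h : Sbn P 𝔸 c τ) :
    Fam (RS P 𝔸 c p) I (fun _ => τ) := by
  rintro (l | e) q hq
  · exact sbn_comp h hq
  · exact congrArg τ (funext hq)

theorem fam_eq {I : Type} {F : (ZMod p → S) → (I → S) → S} (h : Fam (RS P 𝔸 c p) I F)
    (e e' : ZMod p → S) : F e = F e' := by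
  funext w
  exact h (Sum.inr (e, e')) (fun i _ => w i) (fun i => rfl)

theorem exists_fac [LinearOrder V] {M : ℕ} (hCOR : T_COR) (hOMG : T_OMG) (hs : Stp P 𝔸 M c)
    (hperm : ∀ γ : S → S, Sb 𝔸 c γ → Bijective γ) [NeZero p]
    (hZ : ∃ Z, Selects (RS P 𝔸 c p) Z) : ∃ U, Fac P 𝔸 c U := by
  have := hs.finS
  have : Finite (ZMod p) := Finite.of_fintype _
  obtain ⟨ρ, hρ⟩ := hCOR _ _ _ (RS P 𝔸 c p)
  obtain ⟨ξ, hξ1, hξ2⟩ := hOMG _ _ _ (RS P 𝔸 c p) ρ hρ hZ
  -- the retraction is the identity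
  have hρid : ∀ e x, ρ e x = x := by
    intro e x
    have h1 : ∀ e', ρ e' = ρ e := by
      intro e'
      funext y
      exact hρ.fam (Sum.inr (e', e)) (fun _ => y) rfl
    have h2 : Sbn P 𝔸 c (fun t : ZMod p → S => ρ e (t 0)) := by
      have h3 := hρ.fam (Sum.inl ()) (fun t => t 0) (sbn_proj 0)
      have h4 : (fun e' : ZMod p → S => ρ e' (e' 0)) = fun t => ρ e (t 0) := by
        funext e'
        rw [h1 e']
      change Sbn P 𝔸 c (fun e' : ZMod p → S => ρ e' (e' 0)) at h3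
      rw [h4] at h3
      exact h3
    have h3 : Sb 𝔸 c (ρ e) := by
      intro W _ G
      obtain ⟨ψ, h4, h5⟩ := h2 W (fun _ => G)
      refine ⟨ψ, fun l z hz => h4 l z fun _ => hz (), fun w s hw => ?_⟩
      have h6 := h5 w
      obtain ⟨s', hs'⟩ := (hs.col.eq_iff (ψ w) (ψ w)).2 rfl
      rw [hs']
      simp only [vt, hs', hw, Sum.elim_inl, id_eq] at h6
      rw [h6]
    exact (hperm _ h3).1 (hρ.idem e x)
  have hifam : ∀ {I : Type} {τ : (I → S) → S}, Fam (RS P 𝔸 c p) I (fun _ => τ) →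
      (∀ s, τ (fun _ => s) = s) → IFam (RS P 𝔸 c p) ρ I (fun _ => τ) := by
    intro I τ h1 h2
    refine ⟨h1, fun e w => hρid e _, fun e w => ?_, fun e t => ?_⟩
    · exact congrArg τ (funext fun i => hρid e _)
    · rw [hρid]
      exact h2 t
  let B : Set ((Fin 2 → S) → S) := {f | IFam (RS P 𝔸 c p) ρ (Fin 2) (fun _ => f)}
  have hpr : ∀ b : Fin 2, (fun w : Fin 2 → S => w b) ∈ B := fun b =>
    hifam (fam_of (sbn_proj b)) fun _ => rfl
  have hξpr : ∀ b : Fin 2, ξ (fun _ => fun w : Fin 2 → S => w b) = b := by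
    intro b
    have h1 := hξ1 b
    simp only [hρid] at h1
    exact h1
  obtain ⟨J, a, z, h1, h2⟩ := separate B (fun f => ξ (fun _ => f)) (hpr 0) (hpr 1) (hξpr 0)
    (hξpr 1)
  refine ⟨fun b => {s | ∃ f ∈ B, (∀ x ∈ J, f x = a x) ∧ ξ (fun _ => f) = b ∧ f z = s}, ?_, ?_, ?_⟩
  · rintro b b' s ⟨f, hf1, hf2, hf3, hf4⟩ ⟨g, hg1, hg2, hg3, hg4⟩
    rw [← hf3, ← hg3]
    exact h2 f g hf1 hg1 hf2 hg2 (hf4.trans hg4.symm)
  · intro b
    obtain ⟨f, hf1, hf2, hf3⟩ := h1 b
    exact ⟨f z, f, hf1, hf2, hf3, rfl⟩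
  · intro n τ hτ hid
    obtain ⟨i, hi⟩ := hξ2 n (fun _ => τ) (hifam (fam_of hτ) hid)
    refine ⟨i, fun u b hu => ?_⟩
    choose f hf1 hf2 hf3 hf4 using hu
    refine ⟨fun w => τ (fun j => f j w), ?_, fun x hx => ?_, ?_, ?_⟩
    · refine hifam (fun l q hq => ?_) fun s => ?_
      · exact fam_of hτ l (fun j e => f j (fun i => q i e)) fun j => (hf1 j).fam l q hq
      · have h3 : ∀ j, f j (fun _ => s) = s := by
          intro j
          have h4 := (hf1 j).idem (fun _ => s) s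
          rw [hρid] at h4
          exact h4
        simp only [h3]
        exact hid s
    · have h3 : (fun j => f j x) = fun _ => a x := funext fun j => hf2 j x hx
      change τ (fun j => f j x) = a x
      rw [h3]
      exact hid _
    · have h3 := hi (fun j _ => f j) hf1
      exact h3.trans (hf3 i)
    · exact congrArg τ (funext hf4)

end rel

/-! ### Blocks with given shapes -/

section shapes

variable {V S X : Type} {σ : Sig}

/-- `z` is a block with entries of types `s` at the positions `k`. -/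
def Sh [LinearOrder V] (P : Pal S X) (c : V → V → S ⊕ X) (k : Fin 6 → ℕ) (s : Fin 6 → S)
    (z : Fin 6 → V) : Prop :=
  ∀ l l', (z l < z l' ↔ k l < k l') ∧ (k l = k l' → c (z l) (z l') = Sum.inl (s l)) ∧
    (k l ≠ k l' → c (z l) (z l') = Sum.inr (P.fr (s l) (s l')))

theorem sh_congr [LinearOrder V] {P : Pal S X} {c : V → V → S ⊕ X} {k k' : Fin 6 → ℕ}
    {s : Fin 6 → S} {z z' : Fin 6 → V} (hk : ∀ l l', k l < k l' ↔ k' l < k' l')
    (h : Sh P c k s z) (h' : Sh P c k' s z') :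
    Same c (Sum.elim z z) (Sum.elim z' z') := by
  have key : ∀ l l', (z l < z l' ↔ z' l < z' l') ∧ c (z l) (z l') = c (z' l) (z' l') := by
    intro l l'
    refine ⟨by rw [(h l l').1, (h' l l').1, hk], ?_⟩
    by_cases he : k l = k l'
    · have he' : k' l = k' l' := by
        have := hk l l'
        have := hk l' l
        omega
      rw [(h l l').2.1 he, (h' l l').2.1 he']
    · have he' : k' l ≠ k' l' := by
        have := hk l l'
        have := hk l' l
        omega
      rw [(h l l').2.2 he, (h' l l').2.2 he']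
  rintro (l | l) (l' | l') <;> exact key l l'

open Classical in
/-- the position of the entry `l` -/
noncomputable def ky {m : ℕ} (π : Fin 6 → Fin m) (Q : Fin m → S → Prop) (t : Fin m → S)
    (l : Fin 6) : ℕ :=
  if Q (π l) (t (π l)) then (π l : ℕ) else m + l

theorem vt_eq {P : Pal S X} {c : V → V → S ⊕ X} (hc : Col P c) (x : V) :
    c x x = Sum.inl (vt P c x) := by
  obtain ⟨s, hs⟩ := (hc.eq_iff x x).2 rfl
  simp only [vt, hs, Sum.elim_inl, id_eq]

/-- systems of blocks -/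
theorem sys6 [LinearOrder V] {P : Pal S X} {𝔸 : Str σ V} {M : ℕ} {c : V → V → S ⊕ X}
    (hSYS : T_SYS) (hs : Stp P 𝔸 M c) {m : ℕ} (π : Fin 6 → Fin m) (Q : Fin m → S → Prop)
    {W : Type} [Finite W] (G : Fin m → W → V) : ∃ e : Fin 6 → W → V,
      (∀ l w w', c (e l w) (e l w') = c (G (π l) w) (G (π l) w')) ∧
      ∀ w, Sh P c (ky π Q (fun j => vt P c (G j w))) (fun l => vt P c (G (π l) w))
        (fun l => e l w) := by
  classical
  have hc := hs.col
  let V' := Set.range (fun p : Fin m × W => G p.1 p.2)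
  have hfin : Finite V' := inferInstance
  let N := Fin (m + 6) ×ₗ V'
  have hN : Finite N := inferInstanceAs (Finite (Fin (m + 6) × V'))
  let πk : Fin (m + 6) → Fin m := fun k => if h : (k : ℕ) < m then ⟨k, h⟩ else
    π ⟨k - m, by omega⟩
  let u : N → V := fun n => ((ofLex n).2 : V)
  let r : N → N → Prop := fun n n' => πk (ofLex n).1 = πk (ofLex n').1 ∧
    ((ofLex n).1 = (ofLex n').1 ∨ Q (πk (ofLex n).1) (vt P c (u n)) ∨
      Q (πk (ofLex n').1) (vt P c (u n')))
  obtain ⟨E, hE1, hE2, hE3⟩ := hSYS σ V S X P 𝔸 M c hs N u r (by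
    rintro n n' ⟨h1, h2⟩
    refine ⟨h1.symm, ?_⟩
    rcases h2 with h2 | h2 | h2
    · exact Or.inl h2.symm
    · exact Or.inr (Or.inr h2)
    · exact Or.inr (Or.inl h2))
  let kk : Fin 6 → S → Fin (m + 6) := fun l s =>
    if Q (π l) s then ⟨(π l : ℕ), by omega⟩ else ⟨m + l, by omega⟩
  have hkk : ∀ l s, πk (kk l s) = π l := by
    intro l s
    simp only [kk]
    split_ifs with h
    · simp only [πk]
      rw [dif_pos (π l).2]
    · simp only [πk]
      rw [dif_neg (by omega)]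
      exact congrArg π (Fin.ext (by simp))
  have hky : ∀ (t : Fin m → S) l, ((kk l (t (π l)) : Fin (m + 6)) : ℕ) = ky π Q t l := by
    intro t l
    simp only [kk, ky]
    split_ifs <;> rfl
  let pt : Fin 6 → W → N := fun l w => toLex (kk l (vt P c (G (π l) w)), ⟨G (π l) w, (π l, w), rfl⟩)
  have hu : ∀ l w, u (pt l w) = G (π l) w := fun l w => rfl
  refine ⟨fun l w => E (pt l w), fun l w w' => ?_, fun w l l' => ⟨?_, ?_, ?_⟩⟩
  · by_cases hv : G (π l) w = G (π l) w'
    · have h1 : pt l w = pt l w' := by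
        exact congrArg toLex (Prod.ext (congrArg (fun v => kk l (vt P c v)) hv) (Subtype.ext hv))
      change c (E (pt l w)) (E (pt l w')) = _
      rw [h1, hE2, hu, hv]
    · have hne : pt l w ≠ pt l w' := by
        intro h
        have h1 := congrArg u h
        exact hv h1
      refine (hE3 _ _ hne).1 ⟨?_, ?_⟩ hv
      · change πk (kk l _) = πk (kk l _)
        rw [hkk, hkk]
      · change kk l (vt P c (G (π l) w)) = kk l (vt P c (G (π l) w')) ∨
          Q (πk (kk l (vt P c (G (π l) w)))) (vt P c (G (π l) w)) ∨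
          Q (πk (kk l (vt P c (G (π l) w')))) (vt P c (G (π l) w'))
        rw [hkk, hkk]
        by_cases h1 : Q (π l) (vt P c (G (π l) w))
        · exact Or.inr (Or.inl h1)
        by_cases h2 : Q (π l) (vt P c (G (π l) w'))
        · exact Or.inr (Or.inr h2)
        left
        simp only [kk, if_neg h1, if_neg h2]
  · have h0 : ∀ l l', kk l (vt P c (G (π l) w)) = kk l' (vt P c (G (π l') w)) → π l = π l' := by
      intro l l' h
      rw [← hkk l (vt P c (G (π l) w)), ← hkk l' (vt P c (G (π l') w)), h]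
    rw [hE1.lt_iff_lt, ← hky (fun j => vt P c (G j w)), ← hky (fun j => vt P c (G j w)),
      ← Fin.lt_def]
    change toLex (_, _) < toLex (_, _) ↔ _
    rw [Prod.Lex.toLex_lt_toLex]
    constructor
    · rintro (h | ⟨h1, h2⟩)
      · exact h
      · have h3 := h0 _ _ h1
        rw [← Subtype.coe_lt_coe] at h2
        simp only at h2
        rw [h3] at h2
        exact absurd h2 (lt_irrefl _)
    · intro h
      exact Or.inl h
  · intro hk
    rw [← hky (fun j => vt P c (G j w)), ← hky (fun j => vt P c (G j w))] at hk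
    have h1 : kk l (vt P c (G (π l) w)) = kk l' (vt P c (G (π l') w)) := Fin.ext hk
    have h2 : π l = π l' := by
      rw [← hkk l (vt P c (G (π l) w)), ← hkk l' (vt P c (G (π l') w)), h1]
    have h3 : pt l w = pt l' w := by
      exact congrArg toLex (Prod.ext h1 (Subtype.ext (congrArg (fun j => G j w) h2)))
    change c (E (pt l w)) (E (pt l' w)) = _
    rw [← h3, hE2, hu]
    exact vt_eq hc _
  · intro hk
    rw [← hky (fun j => vt P c (G j w)), ← hky (fun j => vt P c (G j w))] at hk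
    have hne : pt l w ≠ pt l' w := by
      intro h
      have h1 := congrArg (fun n => ((ofLex n).1 : ℕ)) h
      exact hk h1
    refine (hE3 _ _ hne).2 ?_
    rintro ⟨⟨h1, -⟩, h2⟩
    apply h2
    change πk (kk l _) = πk (kk l' _) at h1
    rw [hkk, hkk] at h1
    rw [hu, hu, h1]

end shapes

section ops

variable {V S X : Type} {σ : Sig} [LinearOrder V] {P : Pal S X} {𝔸 : Str σ V} {M : ℕ}
  {c : V → V → S ⊕ X} {h : (Fin 6 → V) → (Fin 6 → V) → S ⊕ X}

theorem exists_sh (hSYS : T_SYS) (hs : Stp P 𝔸 M c) {m : ℕ} (π : Fin 6 → Fin m)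
    (Q : Fin m → S → Prop) (t : Fin m → S) : ∃ z, Sh P c (ky π Q t) (fun l => t (π l)) z := by
  choose x hx using hs.col.surS
  have hx' : ∀ s, vt P c (x s) = s := fun s => by simp only [vt, hx, Sum.elim_inl, id_eq]
  obtain ⟨e, -, he⟩ := sys6 hSYS hs π Q (fun j (_ : Unit) => x (t j))
  have h1 := he ()
  simp only [hx'] at h1
  exact ⟨_, h1⟩

theorem exists_op (hSYS : T_SYS) (hs : Stp P 𝔸 M c) (hh : Core P 𝔸 c h) {m : ℕ}
    (π : Fin 6 → Fin m) (Q : Fin m → S → Prop) : ∃ τ : (Fin m → S) → S,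
      (∀ (t : Fin m → S) (k : Fin 6 → ℕ) (z : Fin 6 → V),
        (∀ l l', k l < k l' ↔ ky π Q t l < ky π Q t l') → Sh P c k (fun l => t (π l)) z →
        h z z = Sum.inl (τ t)) ∧ Sbn P 𝔸 c τ ∧ ∀ s, τ (fun _ => s) = s := by
  have hc := hs.col
  have hval : ∀ z : Fin 6 → V, ∃ s, h z z = Sum.inl s := by
    intro z
    obtain ⟨ψ, -, h1⟩ := hh.can.comb Unit (fun l _ => z l)
    obtain ⟨s, h2⟩ := (hc.eq_iff (ψ ()) (ψ ())).2 rfl
    exact ⟨s, (h1 () ()).symm.trans h2⟩
  choose z hz using exists_sh hSYS hs π Q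
  choose τ hτ using fun t => hval (z t)
  have key : ∀ (t : Fin m → S) (k : Fin 6 → ℕ) (z : Fin 6 → V),
        (∀ l l', k l < k l' ↔ ky π Q t l < ky π Q t l') → Sh P c k (fun l => t (π l)) z →
        h z z = Sum.inl (τ t) := by
    intro t k z' hk hz'
    rw [← hτ t]
    exact hh.can.tinv _ _ _ _ (sh_congr hk hz' (hz t))
  refine ⟨τ, key, ?_, ?_⟩
  · intro W _ G
    obtain ⟨e, he1, he2⟩ := sys6 hSYS hs π Q G
    obtain ⟨ψ, h1, h2⟩ := hh.can.comb W e
    refine ⟨ψ, fun l y hy => h1 l y fun i => ?_, fun w => ?_⟩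
    · exact hs.tyi l _ _ (hy (π i)) fun a b => he1 i _ _
    · have h3 := h2 w w
      rw [key (fun i => vt P c (G i w)) _ (fun i => e i w) (fun _ _ => Iff.rfl) (he2 w)] at h3
      change Sum.elim id P.ls (c (ψ w) (ψ w)) = _
      rw [h3]
      rfl
  · intro s
    have h1 := hz (fun _ => s)
    have h2 := hh.idem s (z fun _ => s) ⟨fun l => (h1 l l).2.1 rfl, fun l l' hl => ?_⟩
    · rw [hτ] at h2
      exact Sum.inl.inj h2
    · by_cases he : ky π Q (fun _ => s) l = ky π Q (fun _ => s) l'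
      · exact absurd ((hc.eq_iff _ _).1 ⟨_, (h1 l l').2.1 he⟩) hl
      · exact (h1 l l').2.2 he

theorem pat_ne (i : Fin 6) (j : Fin 2) : ∃ r : Fin 3, pat r (0 : Fin 2) 1 i ≠ j := by
  unfold pat
  revert i j
  decide

theorem inj01 (κ : Fin 2) : Injective (fun a : Fin 2 => if a = κ then (0 : Fin 2) else 1) := by
  intro a b h
  revert h
  revert a b κ
  decide

theorem inj10 (κ : Fin 2) : Injective (fun a : Fin 2 => if a = κ then (1 : Fin 2) else 0) := by
  intro a b h
  revert h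
  revert a b κ
  decide

theorem no_fac (hSYS : T_SYS) (hs : Stp P 𝔸 M c) (hh : Core P 𝔸 c h) {U : Fin 2 → Set S}
    (hU : Fac P 𝔸 c U) : False := by
  have hc := hs.col
  obtain ⟨τi, hi1, hi2, hi3⟩ := exists_op hSYS hs hh (id : Fin 6 → Fin 6) (fun _ _ => False)
  obtain ⟨i, hi⟩ := hU.acts 6 τi hi2 hi3
  choose τ h1 h2 h3 using fun (r : Fin 3) (Q : Fin 2 → S → Prop) =>
    exists_op hSYS hs hh (pat r (0 : Fin 2) 1) Q
  choose j hj using fun r Q => hU.acts 2 (τ r Q) (h2 r Q) (h3 r Q)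
  choose x hx using hU.ne
  -- locality
  have hloc : ∀ r (Q Q' : Fin 2 → S → Prop) (t : Fin 2 → S), (∀ a, Q a (t a) ↔ Q' a (t a)) →
      τ r Q t = τ r Q' t := by
    intro r Q Q' t hQ
    obtain ⟨z, hz⟩ := exists_sh hSYS hs (pat r (0 : Fin 2) 1) Q t
    have hk : ky (pat r (0 : Fin 2) 1) Q t = ky (pat r (0 : Fin 2) 1) Q' t := by
      funext l
      unfold ky
      classical
      by_cases h5 : Q (pat r (0 : Fin 2) 1 l) (t (pat r (0 : Fin 2) 1 l))
      · rw [if_pos h5, if_pos ((hQ _).1 h5)]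
      · rw [if_neg h5, if_neg (fun h6 => h5 ((hQ _).2 h6))]
    have e1 := h1 r Q t _ z (fun _ _ => Iff.rfl) hz
    have e2 := h1 r Q' t _ z (fun _ _ => by rw [hk]) hz
    exact Sum.inl.inj (e1.symm.trans e2)
  -- nothing glued
  have hnone : ∀ r, j r (fun _ _ => False) = pat r (0 : Fin 2) 1 i := by
    intro r
    obtain ⟨z, hz⟩ := exists_sh hSYS hs (pat r (0 : Fin 2) 1) (fun _ _ => False) x
    have e1 := h1 r (fun _ _ => False) x _ z (fun _ _ => Iff.rfl) hz
    have e2 := hi1 (fun l => x (pat r (0 : Fin 2) 1 l)) _ z (fun l l' => by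
      simp only [ky, if_false, id_eq]
      omega) hz
    have e3 : τ r (fun _ _ => False) x = τi (fun l => x (pat r (0 : Fin 2) 1 l)) :=
      Sum.inl.inj (e1.symm.trans e2)
    have e4 := hj r (fun _ _ => False) x id hx
    have e5 := hi (fun l => x (pat r (0 : Fin 2) 1 l)) (pat r (0 : Fin 2) 1) fun l => hx _
    rw [e3] at e4
    exact hU.disj _ _ _ e4 e5
  -- everything glued
  have hall : ∀ r, j r (fun _ _ => True) = j 0 (fun _ _ => True) := by
    have hlr : ∀ t : Fin 2 → S, ∃ y : Fin 2 → V, ∀ r,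
        Sh P c (ky (pat r (0 : Fin 2) 1) (fun _ _ => True) t) (fun l => t (pat r (0 : Fin 2) 1 l))
          (fun l => y (pat r (0 : Fin 2) 1 l)) := by
      intro t
      obtain ⟨z, hz⟩ := exists_sh hSYS hs (pat 1 (0 : Fin 2) 1) (fun _ _ => True) t
      have hsec : ∀ a : Fin 2, pat 1 (0 : Fin 2) 1 (![0, 1] a : Fin 6) = a := by
        unfold pat
        decide
      refine ⟨fun a => z (![0, 1] a), fun r l l' => ?_⟩
      have h4 := hz (![0, 1] (pat r (0 : Fin 2) 1 l)) (![0, 1] (pat r (0 : Fin 2) 1 l'))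
      simp only [ky, if_true, hsec] at h4
      simp only [ky, if_true]
      exact h4
    intro r
    obtain ⟨y, hy⟩ := hlr x
    have e1 := h1 r (fun _ _ => True) x _ _ (fun _ _ => Iff.rfl) (hy r)
    have e2 := h1 0 (fun _ _ => True) x _ _ (fun _ _ => Iff.rfl) (hy 0)
    have hp : ∀ r, (fun l => y (pat r (0 : Fin 2) 1 l)) = pat r (y 0) (y 1) := by
      intro r
      funext l
      exact pat_map y r 0 1 l
    rw [hp] at e1 e2
    rw [hh.exact r (y 0) (y 1) (y 0) (y 1), e2] at e1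
    have e3 := Sum.inl.inj e1
    have e4 := hj r (fun _ _ => True) x id hx
    have e5 := hj 0 (fun _ _ => True) x id hx
    rw [← e3] at e4
    exact hU.disj _ _ _ e4 e5
  -- switching
  have hsw : ∀ r (κ : Fin 2) (Q Q' : Fin 2 → S → Prop), (∀ a, a ≠ κ → Q a = Q' a) →
      (∀ s, ¬ Q κ s) → (∀ s, Q' κ s) → j r Q = j r Q' := by
    intro r κ Q Q' hQ h4 h5
    let H : Fin 2 → S → Prop := fun a s => if a = κ then s ∈ U 0 else Q a s
    have key : ∀ b : Fin 2 → Fin 2, Injective b → j r H = if b κ = 0 then j r Q' else j r Q := by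
      intro b hb
      have e1 := hj r H (fun a => x (b a)) b fun a => hx _
      split_ifs with h0
      · have e2 : τ r H (fun a => x (b a)) = τ r Q' (fun a => x (b a)) := by
          refine hloc r H Q' _ fun a => ?_
          by_cases ha : a = κ
          · simp only [H, ha, if_true, h0]
            exact ⟨fun _ => h5 _, fun _ => hx 0⟩
          · simp only [H, if_neg ha, hQ a ha]
        have e3 := hj r Q' (fun a => x (b a)) b fun a => hx _
        rw [e2] at e1
        exact hb (hU.disj _ _ _ e1 e3)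
      · have e2 : τ r H (fun a => x (b a)) = τ r Q (fun a => x (b a)) := by
          refine hloc r H Q _ fun a => ?_
          by_cases ha : a = κ
          · simp only [H, ha, if_true]
            refine ⟨fun h6 => absurd (hU.disj _ _ _ (hx (b κ)) h6) h0, fun h6 => absurd h6 (h4 _)⟩
          · simp only [H, if_neg ha]
        have e3 := hj r Q (fun a => x (b a)) b fun a => hx _
        rw [e2] at e1
        exact hb (hU.disj _ _ _ e1 e3)
    have hA := key _ (inj01 κ)
    have hB := key _ (inj10 κ)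
    simp only [if_true] at hA hB
    rw [if_neg (by decide)] at hB
    exact hB.symm.trans hA
  obtain ⟨r, hr⟩ := pat_ne i (j 0 (fun _ _ => True))
  apply hr
  rw [← hnone r, ← hall r]
  have e1 := hsw r 0 (fun _ _ => False) (fun a _ => a = 0)
    (fun a ha => by funext s; simp only [ha]) (fun _ h => h) (fun _ => rfl)
  have e2 := hsw r 1 (fun a _ => a = 0) (fun _ _ => True)
    (fun a ha => by
      funext s
      have : a = 0 := by omega
      simp only [this])
    (fun _ h => absurd h (by decide)) (fun _ => trivial)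
  exact e1.trans e2

end ops

theorem pf_SRT (hSYS : T_SYS) (hCYF : T_CYF) (hCOR : T_COR) (hOMG : T_OMG) : T_SRT := by
  intro σ V S X _ P 𝔸 M c hs h hh
  have := hs.finS
  refine ⟨Nat.card S, fun p hp hN => ?_⟩
  have : NeZero p := ⟨hp.ne_zero⟩
  have : Finite (ZMod p) := Finite.of_fintype _
  have hZ : ¬ ∃ Z, Selects (RS P 𝔸 c p) Z := fun hZ => by
    obtain ⟨U, hU⟩ := exists_fac hCOR hOMG hs hh.perm hZ
    exact no_fac hSYS hs hh hU
  obtain ⟨F, hF1, hF2⟩ := hCYF _ _ _ (RS P 𝔸 c p) hZ p hp hN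
  obtain ⟨v⟩ := hs.ne
  let e0 : ZMod p → S := fun _ => vt P c v
  refine ⟨F e0, ?_, hF2 e0⟩
  have h1 := hF1 (Sum.inl ()) (fun i t => t i) fun i => sbn_proj i
  have h2 : (fun t : ZMod p → S => F t (fun i => t i)) = F e0 := by
    funext t
    rw [fam_eq hF1 t e0]
  change Sbn P 𝔸 c (fun t : ZMod p → S => F t (fun i => t i)) at h1
  rw [h2] at h1
  exact h1

end Pool.Agent.H50.SO
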