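import Pool.Agent.H57.SO.Targets
import Pool.Agent.H50.SO.RED

/-!
# Several orbits of vertices: targets RE1 and RED
-/

set_option autoImplicit false

namespace Pool.Agent.H50.SO

open Pool.Agent.H57.SO

theorem pf_RE1 : T_RE1 := by
  intro σ V S X _ P 𝔸 M c hs n 𝕏
  exact re1 hs n 𝕏

theorem pf_RED : T_RED := by
  intro σ V S X _ P 𝔸 M c hs
  exact red hs

end Pool.Agent.H50.SO
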