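import Pool.Agent.H57.SO.Defs
import Pool.Agent.H50.EQD.STR

/-!
# Structures with free amalgamation in a binary language: types of elements and pairs
-/

set_option autoImplicit false

namespace Pool.Agent.H50.SO

open Pool.Agent.H68.BP Pool.Agent.H58.SF Pool.Agent.H53.GC Pool.Agent.H53.NR
open Pool.Agent.H57.SO
open Pool.Agent.H18.SF (ty exists_aut_of_ty)
open Pool.Agent.H50.EQ (pr comp_pr)
open Pool.Agent.H50.EQD (pr_inj pr_const pr_self pr_one cases_z)
open Function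

section

variable {τ σ : Sig} {B : Type} {𝔹 : Str τ B}

/-- the types of elements -/
abbrev T1 (𝔹 : Str τ B) : Type := {t : Fin τ.m → Prop // ∃ x : B, ∀ l, t l ↔ 𝔹 l (fun _ => x)}

/-- the types of pairs of different elements -/
abbrev T2 (𝔹 : Str τ B) : Type :=
  {t : (T1 𝔹 × T1 𝔹) × ((Fin τ.m → Prop) × (Fin τ.m → Prop)) // ∃ x y : B, x ≠ y ∧
    ∀ l, (t.1.1.1 l ↔ 𝔹 l (fun _ => x)) ∧ (t.1.2.1 l ↔ 𝔹 l (fun _ => y)) ∧
      (t.2.1 l ↔ 𝔹 l (pr l x y)) ∧ (t.2.2 l ↔ 𝔹 l (pr l y x))}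

/-- the type of an element -/
def ty1 (𝔹 : Str τ B) (x : B) : T1 𝔹 := ⟨fun l => 𝔹 l (fun _ => x), x, fun _ => Iff.rfl⟩

theorem ty1_eq {x : B} {t : T1 𝔹} : ty1 𝔹 x = t ↔ ∀ l, t.1 l ↔ 𝔹 l (fun _ => x) := by
  constructor
  · rintro rfl l
    exact Iff.rfl
  · intro h
    apply Subtype.ext
    funext l
    exact propext (h l).symm

/-- the type of a pair of different elements -/
def ty2 (𝔹 : Str τ B) (x y : B) (h : x ≠ y) : T2 𝔹 :=
  ⟨((ty1 𝔹 x, ty1 𝔹 y), (fun l => 𝔹 l (pr l x y), fun l => 𝔹 l (pr l y x))), x, y, h,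
    fun _ => ⟨Iff.rfl, Iff.rfl, Iff.rfl, Iff.rfl⟩⟩

/-- the reversed type -/
def rvT (𝔹 : Str τ B) (t : T2 𝔹) : T2 𝔹 :=
  ⟨((t.1.1.2, t.1.1.1), (t.1.2.2, t.1.2.1)), by
    obtain ⟨x, y, h1, h2⟩ := t.2
    exact ⟨y, x, h1.symm, fun l => ⟨(h2 l).2.1, (h2 l).1, (h2 l).2.2.2, (h2 l).2.2.1⟩⟩⟩

theorem rvT_rvT (t : T2 𝔹) : rvT 𝔹 (rvT 𝔹 t) = t := rfl

open Classical in
/-- the colouring -/
noncomputable def cc (𝔹 : Str τ B) (x y : B) : T1 𝔹 ⊕ T2 𝔹 :=
  if h : x = y then Sum.inl (ty1 𝔹 x) else Sum.inr (ty2 𝔹 x y h)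

theorem cc_self (x : B) : cc 𝔹 x x = Sum.inl (ty1 𝔹 x) := by
  unfold cc
  rw [dif_pos rfl]

theorem cc_inl {x y : B} {t : T1 𝔹} : cc 𝔹 x y = Sum.inl t ↔ x = y ∧ ty1 𝔹 x = t := by
  unfold cc
  by_cases h : x = y
  · rw [dif_pos h, Sum.inl.injEq]
    exact ⟨fun h1 => ⟨h, h1⟩, fun h1 => h1.2⟩
  · rw [dif_neg h]
    exact ⟨fun h1 => absurd h1 (by simp), fun h1 => absurd h1.1 h⟩

theorem cc_inr {x y : B} {t : T2 𝔹} : cc 𝔹 x y = Sum.inr t ↔ x ≠ y ∧ ty1 𝔹 x = t.1.1.1 ∧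
    ty1 𝔹 y = t.1.1.2 ∧ ∀ l, (t.1.2.1 l ↔ 𝔹 l (pr l x y)) ∧ (t.1.2.2 l ↔ 𝔹 l (pr l y x)) := by
  unfold cc
  by_cases h : x = y
  · rw [dif_pos h]
    exact ⟨fun h1 => absurd h1 (by simp), fun h1 => absurd h h1.1⟩
  · rw [dif_neg h, Sum.inr.injEq]
    constructor
    · rintro rfl
      exact ⟨h, rfl, rfl, fun l => ⟨Iff.rfl, Iff.rfl⟩⟩
    · rintro ⟨-, h1, h2, h3⟩
      apply Subtype.ext
      refine Prod.ext (Prod.ext h1 h2) (Prod.ext ?_ ?_)
      · funext l
        exact propext (h3 l).1.symm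
      · funext l
        exact propext (h3 l).2.symm

theorem cc_eq_iff (x y : B) : (∃ s, cc 𝔹 x y = Sum.inl s) ↔ x = y := by
  constructor
  · rintro ⟨s, hs⟩
    exact (cc_inl.1 hs).1
  · rintro rfl
    exact ⟨_, cc_self x⟩

/-- the free type of two elements -/
theorem exists_free {M : ℕ} (har : ∀ l, 1 ≤ τ.ar l ∧ τ.ar l ≤ 2) (hF : FreelyBounded 𝔹 M)
    (s t : T1 𝔹) : ∃ x y : B, x ≠ y ∧ ty1 𝔹 x = s ∧ ty1 𝔹 y = t ∧
      ∀ l, τ.ar l = 2 → ¬ 𝔹 l (pr l x y) ∧ ¬ 𝔹 l (pr l y x) := by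
  obtain ⟨a, ha⟩ := s.2
  obtain ⟨b, hb⟩ := t.2
  obtain ⟨f, hf1, hf2⟩ := hF 2 (fun l z => ∃ w : Fin 2, z = (fun _ => w) ∧
      𝔹 l (fun _ => if w = 0 then a else b)) (by
    intro m s' _ hs hirr
    have hm : m ≤ 1 := by
      by_contra hm
      obtain ⟨l, z, ⟨w, hw, -⟩, ⟨i, hi⟩, ⟨j, hj⟩⟩ := hirr ⟨0, by omega⟩ ⟨1, by omega⟩ (by simp)
      have h1 := congrFun hw i
      have h2 := congrFun hw j
      rw [hi] at h1
      rw [hj] at h2
      have h3 := hs (h1.trans h2.symm)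
      simp at h3
    refine ⟨fun i => if s' i = 0 then a else b, fun i j _ => Fin.ext (by omega), fun l z => ?_⟩
    have hl := (har l).1
    have hz : ∀ i, z i = z ⟨0, by omega⟩ := fun i => Fin.ext (by
      have := (z i).2
      have := (z ⟨0, by omega⟩).2
      omega)
    constructor
    · rintro ⟨w, hw, h2⟩
      have h3 : (fun i => if s' (z i) = 0 then a else b) =
          fun _ : Fin (τ.ar l) => if w = 0 then a else b := by
        funext i
        have h4 := congrFun hw i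
        rw [h4]
      rw [h3]
      exact h2
    · intro h2
      refine ⟨s' (z ⟨0, by omega⟩), ?_, ?_⟩
      · funext i
        rw [hz i]
      · have h3 : (fun i => if s' (z i) = 0 then a else b) =
            fun _ : Fin (τ.ar l) => if s' (z ⟨0, by omega⟩) = 0 then a else b := by
          funext i
          rw [hz i]
        rw [h3] at h2
        exact h2)
  have hconst : ∀ (l : Fin τ.m) (w w' : Fin 2),
      (fun _ : Fin (τ.ar l) => w) = (fun _ => w') → w = w' := by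
    intro l w w' h
    exact congrFun h ⟨0, by have := (har l).1; omega⟩
  refine ⟨f 0, f 1, fun he => absurd (hf1 he) (by decide), ?_, ?_, fun l h2 => ⟨?_, ?_⟩⟩
  · rw [ty1_eq]
    intro l
    have h1 := hf2 l (fun _ => 0)
    rw [← h1, ha l]
    constructor
    · intro h
      exact ⟨0, rfl, h⟩
    · rintro ⟨w, hw, h⟩
      rw [← hconst l 0 w hw] at h
      exact h
  · rw [ty1_eq]
    intro l
    have h1 := hf2 l (fun _ => 1)
    rw [← h1, hb l]
    constructor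
    · intro h
      exact ⟨1, rfl, h⟩
    · rintro ⟨w, hw, h⟩
      rw [← hconst l 1 w hw] at h
      exact h
  · intro h3
    have h4 := hf2 l (pr l 0 1)
    rw [comp_pr] at h4
    obtain ⟨w, hw, -⟩ := h4.2 h3
    exact absurd (pr_const h2 hw) (by decide)
  · intro h3
    have h4 := hf2 l (pr l 1 0)
    rw [comp_pr] at h4
    obtain ⟨w, hw, -⟩ := h4.2 h3
    exact absurd (pr_const h2 hw) (by decide)

/-- the free type of two elements -/
def frT {M : ℕ} (har : ∀ l, 1 ≤ τ.ar l ∧ τ.ar l ≤ 2) (hF : FreelyBounded 𝔹 M) (s t : T1 𝔹) :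
    T2 𝔹 :=
  ⟨((s, t), (fun l => τ.ar l = 1 ∧ s.1 l, fun l => τ.ar l = 1 ∧ t.1 l)), by
    obtain ⟨x, y, h1, h2, h3, h4⟩ := exists_free har hF s t
    have h5 := ty1_eq.1 h2
    have h6 := ty1_eq.1 h3
    refine ⟨x, y, h1, fun l => ⟨h5 l, h6 l, ?_, ?_⟩⟩
    · rcases (show τ.ar l = 1 ∨ τ.ar l = 2 by have := har l; omega) with h | h
      · rw [pr_one h]
        exact ⟨fun h' => (h5 l).1 h'.2, fun h' => ⟨h, (h5 l).2 h'⟩⟩
      · exact ⟨fun h' => absurd h'.1 (by omega), fun h' => absurd h' (h4 l h).1⟩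
    · rcases (show τ.ar l = 1 ∨ τ.ar l = 2 by have := har l; omega) with h | h
      · rw [pr_one h]
        exact ⟨fun h' => (h6 l).1 h'.2, fun h' => ⟨h, (h6 l).2 h'⟩⟩
      · exact ⟨fun h' => absurd h'.1 (by omega), fun h' => absurd h' (h4 l h).2⟩⟩

/-- the palette -/
def palD {M : ℕ} (har : ∀ l, 1 ≤ τ.ar l ∧ τ.ar l ≤ 2) (hF : FreelyBounded 𝔹 M) :
    Pal (T1 𝔹) (T2 𝔹) where
  ls t := t.1.1.1
  rs t := t.1.1.2
  rv := rvT 𝔹
  fr := frT har hF
  ls_fr _ _ := rfl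
  rs_fr _ _ := rfl
  rv_fr _ _ := rfl

theorem col_cc {M : ℕ} (har : ∀ l, 1 ≤ τ.ar l ∧ τ.ar l ≤ 2) (hF : FreelyBounded 𝔹 M) :
    Col (palD har hF) (cc 𝔹) where
  eq_iff := cc_eq_iff
  left x y t h := by
    rw [cc_self]
    exact congrArg Sum.inl (cc_inr.1 h).2.1
  right x y t h := by
    rw [cc_self]
    exact congrArg Sum.inl (cc_inr.1 h).2.2.1
  swap x y t h := by
    obtain ⟨h1, h2, h3, h4⟩ := cc_inr.1 h
    exact cc_inr.2 ⟨h1.symm, h3, h2, fun l => ⟨(h4 l).2, (h4 l).1⟩⟩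
  surS s := by
    obtain ⟨x, hx⟩ := s.2
    refine ⟨x, ?_⟩
    rw [cc_self]
    exact congrArg Sum.inl (ty1_eq.2 hx)
  surX t := by
    obtain ⟨x, y, h1, h2⟩ := t.2
    exact ⟨x, y, cc_inr.2 ⟨h1, ty1_eq.2 fun l => (h2 l).1, ty1_eq.2 fun l => (h2 l).2.1,
      fun l => ⟨(h2 l).2.2.1, (h2 l).2.2.2⟩⟩⟩

/-- the colour of a pair -/
def dd {n : ℕ} (d : Fin n → Fin n → T2 𝔹) (i j : Fin n) : T2 𝔹 :=
  if i < j then d i j else rvT 𝔹 (d j i)

theorem dd_swap {n : ℕ} (d : Fin n → Fin n → T2 𝔹) {i j : Fin n} (h : i ≠ j) :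
    dd d j i = rvT 𝔹 (dd d i j) := by
  unfold dd
  rcases lt_or_gt_of_ne h with h1 | h1
  · rw [if_pos h1, if_neg (not_lt_of_gt h1)]
  · rw [if_neg (not_lt_of_gt h1), if_pos h1, rvT_rvT]

/-- the structure given by the types -/
def SX {n : ℕ} (t : Fin n → T1 𝔹) (d : Fin n → Fin n → T2 𝔹) : Str τ (Fin n) := fun l z =>
  (∃ w, z = (fun _ => w) ∧ (t w).1 l) ∨
    (τ.ar l = 2 ∧ ∃ u w, u ≠ w ∧ z = pr l u w ∧ (dd d u w).1.2.1 l)

theorem SX_const (har : ∀ l, 1 ≤ τ.ar l ∧ τ.ar l ≤ 2) {n : ℕ} (t : Fin n → T1 𝔹)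
    (d : Fin n → Fin n → T2 𝔹) (l : Fin τ.m) (w : Fin n) :
    SX t d l (fun _ => w) ↔ (t w).1 l := by
  constructor
  · rintro (⟨w', h1, h2⟩ | ⟨h2, u, w', h3, h4, -⟩)
    · have h3 : w = w' := congrFun h1 ⟨0, by have := (har l).1; omega⟩
      rw [h3]
      exact h2
    · exact absurd (pr_const h2 h4.symm) h3
  · intro h1
    exact Or.inl ⟨w, rfl, h1⟩

theorem SX_pair {n : ℕ} (t : Fin n → T1 𝔹) (d : Fin n → Fin n → T2 𝔹) {l : Fin τ.m}
    (h2 : τ.ar l = 2) {u w : Fin n} (huw : u ≠ w) :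
    SX t d l (pr l u w) ↔ (dd d u w).1.2.1 l := by
  constructor
  · rintro (⟨w', h1, -⟩ | ⟨-, u', w', h3, h4, h5⟩)
    · exact absurd (pr_const h2 h1) huw
    · obtain ⟨rfl, rfl⟩ := pr_inj h2 h4
      exact h5
  · intro h1
    exact Or.inr ⟨h2, u, w, huw, rfl, h1⟩

end

theorem uni_cc (hFB2 : T_FB2) {τ : Sig} {B : Type} {𝔹 : Str τ B} {M : ℕ} (hM : 2 ≤ M)
    (en : B → ℕ) (hen : Injective en) (har : ∀ l, 1 ≤ τ.ar l ∧ τ.ar l ≤ 2) (hH : Homogeneous 𝔹)
    (hF : FreelyBounded 𝔹 M) :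
    @Uni B (T1 𝔹) (T2 𝔹) (LinearOrder.lift' en hen) (palD har hF) (cc 𝔹) M := by
  let _ : LinearOrder B := LinearOrder.lift' en hen
  intro n t d hd
  -- the types of the elements of a pair
  have hty : ∀ i j, i < j → (d i j).1.1.1 = t i ∧ (d i j).1.1.2 = t j := by
    intro i j hij
    by_cases hfr : d i j = frT har hF (t i) (t j)
    · rw [hfr]
      exact ⟨rfl, rfl⟩
    · obtain ⟨v, hv1, hv2⟩ := hd 2 ![i, j] hM (by
        intro a b hab
        fin_cases a <;> fin_cases b <;> first | exact hij | exact absurd hab (by decide)) (by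
        intro a b hab
        fin_cases a <;> fin_cases b <;> first | exact hfr | exact absurd hab (by decide))
      have h1 := hv2 0 1 (by decide)
      obtain ⟨-, h2, h3, -⟩ := cc_inr.1 h1
      have h4 := hv1 0
      have h5 := hv1 1
      rw [cc_self] at h4 h5
      exact ⟨h2.symm.trans (Sum.inl.inj h4), h3.symm.trans (Sum.inl.inj h5)⟩
  have hemb : Embeds (SX t d) 𝔹 := by
    refine hF n (SX t d) fun m s hm hs hirr => ?_
    have hmono : StrictMono (s ∘ Tuple.sort s) :=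
      (Tuple.monotone_sort s).strictMono_of_injective (hs.comp (Tuple.sort s).injective)
    have hne : ∀ a b, a ≠ b → dd d (s a) (s b) ≠ frT har hF (t (s a)) (t (s b)) := by
      intro a b hab heq
      have heq' : dd d (s b) (s a) = frT har hF (t (s b)) (t (s a)) := by
        rw [dd_swap d (fun h => hab (hs h)), heq]
        rfl
      obtain ⟨l, z, hz, ⟨p, hp⟩, ⟨q, hq⟩⟩ := hirr a b hab
      rcases hz with ⟨w, hw, -⟩ | ⟨h2, u, w, huw, hz1, hz2⟩
      · have h1 := congrFun hw p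
        have h2 := congrFun hw q
        rw [hp] at h1
        rw [hq] at h2
        exact hab (hs (h1.trans h2.symm))
      · have e1 : ∀ i : Fin (τ.ar l), s (z i) = u ∨ s (z i) = w := by
          intro i
          have h3 := congrFun hz1 i
          rw [h3]
          simp only [pr]
          split_ifs
          · exact Or.inl rfl
          · exact Or.inr rfl
        have e2 := e1 p
        have e3 := e1 q
        rw [hp] at e2
        rw [hq] at e3
        have e4 : dd d u w = frT har hF (t u) (t w) := by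
          rcases e2 with e2 | e2 <;> rcases e3 with e3 | e3
          · exact absurd (hs (e2.trans e3.symm)) hab
          · rw [← e2, ← e3, heq]
          · rw [← e2, ← e3, heq']
          · exact absurd (hs (e2.trans e3.symm)) hab
        rw [e4] at hz2
        have h5 := hz2.1
        omega
    obtain ⟨v, hv1, hv⟩ := hd m (s ∘ Tuple.sort s) hm hmono (by
      intro i j hij heq
      refine hne (Tuple.sort s i) (Tuple.sort s j) (fun h => hij.ne ((Tuple.sort s).injective h)) ?_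
      have h3 := hmono hij
      simp only [comp_apply] at h3 heq
      unfold dd
      rw [if_pos h3]
      exact heq)
    have hv2 : ∀ a b, a ≠ b → cc 𝔹 (v ((Tuple.sort s).symm a)) (v ((Tuple.sort s).symm b)) =
        Sum.inr (dd d (s a) (s b)) := by
      intro a b hab
      have hne' : (Tuple.sort s).symm a ≠ (Tuple.sort s).symm b := fun h =>
        hab ((Tuple.sort s).symm.injective h)
      rcases lt_or_gt_of_ne hne' with h | h
      · rw [hv _ _ h]
        have h3 := hmono h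
        simp only [comp_apply, Equiv.apply_symm_apply] at h3 ⊢
        unfold dd
        rw [if_pos h3]
      · rw [(col_cc har hF).swap _ _ _ (hv _ _ h)]
        have h3 := hmono h
        simp only [comp_apply, Equiv.apply_symm_apply] at h3 ⊢
        unfold dd
        rw [if_neg (not_lt_of_gt h3)]
        rfl
    have hv3 : ∀ a, ty1 𝔹 (v ((Tuple.sort s).symm a)) = t (s a) := by
      intro a
      have h3 := hv1 ((Tuple.sort s).symm a)
      rw [cc_self] at h3
      simp only [comp_apply, Equiv.apply_symm_apply] at h3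
      exact Sum.inl.inj h3
    refine ⟨fun a => v ((Tuple.sort s).symm a), ?_, fun l z => ?_⟩
    · intro a b hab
      by_contra hne'
      have h3 := hv2 a b hne'
      have hab' : v ((Tuple.sort s).symm a) = v ((Tuple.sort s).symm b) := hab
      rw [hab', cc_self] at h3
      exact absurd h3 (by simp)
    · rcases cases_z (har l) z with ⟨w, rfl⟩ | ⟨h2, u, w, huw, rfl⟩
      · have e1 : pull (SX t d) s l (fun _ => w) ↔ (t (s w)).1 l := SX_const har t d l (s w)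
        rw [e1]
        exact ty1_eq.1 (hv3 w) l
      · have e1 : pull (SX t d) s l (pr l u w) ↔ SX t d l (pr l (s u) (s w)) := by
          rw [← comp_pr]
          exact Iff.rfl
        rw [e1, SX_pair t d h2 (fun h' => huw (hs h')), comp_pr (fun a => v ((Tuple.sort s).symm a))]
        exact ((cc_inr.1 (hv2 u w huw)).2.2.2 l).1
  obtain ⟨f, hf, hf'⟩ := hFB2 τ B 𝔹 M en hen hH hF n (SX t d) hemb
  have hft : ∀ i, ty1 𝔹 (f i) = t i := by
    intro i
    rw [ty1_eq]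
    intro l
    rw [← SX_const har t d l i]
    exact hf.2 l (fun _ => i)
  refine ⟨f, hf', fun i => by rw [cc_self, hft], fun i j hij => cc_inr.2
    ⟨fun h => hij.ne (hf.1 h), by rw [hft, (hty i j hij).1], by rw [hft, (hty i j hij).2],
      fun l => ?_⟩⟩
  have hdd : dd d i j = d i j := by
    unfold dd
    rw [if_pos hij]
  by_cases h2 : τ.ar l = 2
  · have e1 := hf.2 l (pr l i j)
    have e2 := hf.2 l (pr l j i)
    rw [comp_pr, SX_pair t d h2 hij.ne, hdd] at e1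
    rw [comp_pr, SX_pair t d h2 hij.ne', dd_swap d hij.ne, hdd] at e2
    exact ⟨e1, e2⟩
  · have h3 : τ.ar l = 1 := by have := har l; omega
    obtain ⟨x, y, -, hxy⟩ := (d i j).2
    have h4 := hxy l
    have h5 := ty1_eq.1 (hft i) l
    have h6 := ty1_eq.1 (hft j) l
    rw [pr_one h3, pr_one h3, (hty i j hij).1, (hty i j hij).2] at h4
    rw [pr_one h3, pr_one h3]
    exact ⟨h4.2.2.1.trans (h4.1.symm.trans h5), h4.2.2.2.trans (h4.2.1.symm.trans h6)⟩

theorem tyi_cc {τ σ : Sig} {B : Type} {𝔹 : Str τ B} {𝔸 : Str σ B}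
    (har : ∀ l, 1 ≤ τ.ar l ∧ τ.ar l ≤ 2) (hH : Homogeneous 𝔹)
    (hS : ∀ g : B ≃ B, IsAut 𝔹 g → IsAut 𝔸 g) : TyInv 𝔸 (cc 𝔹) := by
  intro l x y hx hxy
  have hself : ∀ (l' : Fin τ.m) w, 𝔹 l' (fun _ => y w) ↔ 𝔹 l' (fun _ => x w) := by
    intro l' w
    have h1 := hxy w w
    rw [cc_self, cc_self] at h1
    have h2 := ty1_eq.1 (Sum.inl.inj h1) l'
    exact h2.symm
  have heq : ∀ i j, y i = y j ↔ x i = x j := by
    intro i j
    rw [← cc_eq_iff (𝔹 := 𝔹), ← cc_eq_iff (𝔹 := 𝔹), hxy]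
  have key : ty 𝔹 y = ty 𝔹 x := by
    refine Prod.ext ?_ ?_
    · funext i j
      exact propext (heq i j)
    · funext l' t
      change 𝔹 l' (fun k => y (t k)) = 𝔹 l' (fun k => x (t k))
      apply propext
      rcases cases_z (har l') t with ⟨w, rfl⟩ | ⟨h2, u, w, huw, rfl⟩
      · exact hself l' w
      · rw [comp_pr y, comp_pr x]
        by_cases hx' : x u = x w
        · rw [(heq u w).2 hx', hx', pr_self, pr_self]
          exact hself l' w
        · have h3 := hxy u w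
          rcases hc : cc 𝔹 (x u) (x w) with s | t'
          · exact absurd ((cc_eq_iff _ _).1 ⟨s, hc⟩) hx'
          · rw [hc] at h3
            have h4 := ((cc_inr.1 hc).2.2.2 l').1
            have h5 := ((cc_inr.1 h3).2.2.2 l').1
            exact h5.symm.trans h4
  obtain ⟨g, hg, hg'⟩ := exists_aut_of_ty hH y x key
  have h3 := (hS g hg l x).1 hx
  have e : (fun i => g (x i)) = y := funext hg'
  rw [e] at h3
  exact h3

end Pool.Agent.H50.SO
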