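import Pool.Agent.H57.SO.Asm
import Pool.Agent.H50.SO.RE
import Pool.Agent.H50.SO.STR

/-!
# Structures with free amalgamation in a finite language of arity at most two: assembly
-/

set_option autoImplicit false

namespace Pool.Agent.H50.SO

open Pool.Agent.H68.BP Pool.Agent.H58.SF Pool.Agent.H53.GC Pool.Agent.H53.NR
open Pool.Agent.H57.EQ (fb_mono T_OLG)
open Pool.Agent.H57.SO
open Function

/-- The theorem for the first-order reducts of structures with free amalgamation in a finite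
language of arity at most two, with several orbits of elements. -/
theorem asm_final (hFB1 : T_FB1) (hFB2 : T_FB2) (hOLG : T_OLG) (hPA : T_PA)
    (hTPL : ∀ (σ : Sig) (V S X : Type) [LinearOrder V] (P : Pal S X) (𝔸 : Str σ V)
      (M : ℕ) (c : V → V → S ⊕ X), Stp P 𝔸 M c → ∀ h, Core P 𝔸 c h →
      ¬ PPConstructsK3 (tpl 𝔸 M c))
    (τ σ : Sig) (B : Type) [Countable B] [Nonempty B] (𝔹 : Str τ B) (𝔸 : Str σ B)
    (har : ∀ l, 1 ≤ τ.ar l ∧ τ.ar l ≤ 2) (hH : Homogeneous 𝔹) (hF : FinitelyBounded 𝔹)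
    (hA : FreeAmalgamation 𝔹) (hS : ∀ g : B ≃ B, IsAut 𝔹 g → IsAut 𝔸 g) :
    PPConstructsK3 𝔸 ∨ ∃ (σ' : Sig) (Y : Type) (_ : Finite Y) (𝕋 : Str σ' Y),
      ¬ PPConstructsK3 𝕋 ∧ N793a5b8e.ManyOneReducible (CSP 𝔸) (CSP 𝕋) := by
  obtain ⟨M₀, -, hFB₀⟩ := hFB1 τ B 𝔹 hF hA
  let M := max M₀ 3
  have hFB : FreelyBounded 𝔹 M := fb_mono hFB₀ (le_max_left _ _)
  obtain ⟨en, hen⟩ := exists_injective_nat B
  let _ : LinearOrder B := LinearOrder.lift' en hen
  have hs : Stp (palD har hFB) 𝔸 M (cc 𝔹) :=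
    ⟨inferInstance, inferInstance, inferInstance, inferInstance, le_max_right _ _,
      col_cc har hFB,
      uni_cc hFB2 (le_trans (by omega) (le_max_right M₀ 3)) en hen har hH hFB,
      tyi_cc har hH hS⟩
  exact asm_all hPA pf_RED hTPL hs (hOLG τ σ B 𝔹 𝔸 inferInstance hH hS)

end Pool.Agent.H50.SO
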