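import Pool.Agent.H46.NR.FB2
import Pool.Agent.H50.EQ.STR
import Pool.Agent.H50.SO.Asm
import Pool.Agent.H50.SO.SRT
import Pool.Agent.H57.SO.All
import Pool.Agent.H57.SO.TOF
import Pool.Agent.H77.NR.FB1

/-!
# Structures with free amalgamation in a finite language of arity at most two: the theorem from the
remaining targets
-/

set_option autoImplicit false

namespace Pool.Agent.H50.SO

open Pool.Agent.H68.BP Pool.Agent.H58.SF Pool.Agent.H53.GC Pool.Agent.H53.NR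
open Pool.Agent.H57.SO

theorem all_SRT : T_SRT :=
  pf_SRT pf_SYS (Pool.Agent.H3.EQ.pf_CYF Pool.Agent.H58.CT.cyclic_terms Pool.Agent.H18.GC.pf_COR)
    Pool.Agent.H18.GC.pf_COR Pool.Agent.H18.GC.pf_OMG

theorem fin_result (hPA : T_PA) (hKER : T_KER) (hINJ2 : T_INJ2) (hCAB : T_CAB) :
    ∀ (τ σ : Sig) (B : Type) [Countable B] [Nonempty B] (𝔹 : Str τ B) (𝔸 : Str σ B),
      (∀ l, 1 ≤ τ.ar l ∧ τ.ar l ≤ 2) → Homogeneous 𝔹 → FinitelyBounded 𝔹 → FreeAmalgamation 𝔹 →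
      (∀ g : B ≃ B, IsAut 𝔹 g → IsAut 𝔸 g) →
      PPConstructsK3 𝔸 ∨ ∃ (σ' : Sig) (Y : Type) (_ : Finite Y) (𝕋 : Str σ' Y),
        ¬ PPConstructsK3 𝕋 ∧ N793a5b8e.ManyOneReducible (CSP 𝔸) (CSP 𝕋) := by
  intro τ σ B _ _ 𝔹 𝔸 har hH hF hA hS
  exact asm_final Pool.Agent.H77.NR.pf_FB1 Pool.Agent.H46.NR.pf_FB2 Pool.Agent.H50.EQ.pf_OLG hPA
    (all_tpl all_SRT hKER hINJ2 hCAB pf_TOF) τ σ B 𝔹 𝔸 har hH hF hA hS

end Pool.Agent.H50.SO
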