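import Pool.Agent.H58.SO.Basic

set_option autoImplicit false

namespace Pool.Agent.H50.SO

open Pool.Agent.H68.BP Pool.Agent.H58.SF Pool.Agent.H53.GC Pool.Agent.H53.NR Pool.Agent.H58.SO

theorem pf_TYB (hSCF : T_SCF) : T_TYB := by
  classical
  intro V X Θ _ M B D h hT
  have h1 : ∀ (κ : Fin 6 → ℕ) (θ : Fin 6 → Θ) (z : Fin 6 → V), ZB B κ z →
      (∀ l, B.vt (z l) = θ l) → B.L (h z z).1 = tyb B h κ θ := by
    intro κ θ z hz ht
    have hex : ∃ z : Fin 6 → V, ZB B κ z ∧ ∀ l, B.vt (z l) = θ l := ⟨z, hz, ht⟩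
    have hs := hex.choose_spec
    unfold tyb
    rw [dif_pos hex]
    have h2 : h z z = h hex.choose hex.choose := by
      refine hT _ _ _ _ (sameO_of_ct ?_)
      have h3 := hz.ct_eq hs.1 (fun l => by rw [ht, hs.2])
      rintro (l | l) (l' | l') <;> first | exact (h3 l l').symm | exact h3 l l'
    rw [h2]
  refine ⟨h1, fun hE r s s' => ?_⟩
  obtain ⟨x, hx⟩ := B.surjT s
  obtain ⟨y, hy⟩ := B.surjT s'
  obtain ⟨z, hz⟩ := hSCF V X Θ M B (Fin 2) Unit ℕ (fun a _ => ![x, y] a) (fun a _ => a)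
    (fun a _ => a) (fun _ => ∅) (fun a _ b _ hab => by
      have : a = b := Fin.ext hab
      rw [this]
      exact ⟨fun _ => rfl, fun _ => rfl⟩)
  have e1 : z 0 () < z 1 () := (hz.lt 0 () 1 ()).2 (Or.inl (by decide))
  have e2 : B.c (z 0 ()) (z 1 ()) = B.fr s s' := by
    have h2 := (hz.col 0 () 1 ()).2 (by simp)
    simpa [hx, hy] using h2
  have t0 : B.vt (z 0 ()) = s := by
    have h2 := hz.typ 0 ()
    simpa [hx] using h2
  have t1 : B.vt (z 1 ()) = s' := by
    have h2 := hz.typ 1 ()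
    simpa [hy] using h2
  have key : ∀ r, ZB B (pat r 0 7) (pat r (z 0 ()) (z 1 ())) ∧
      ∀ l, B.vt (pat r (z 0 ()) (z 1 ()) l) = pat r s s' l := by
    intro r
    refine ⟨fun l l' => ?_, fun l => ?_⟩
    · have hp : ∀ l, pat r (z 0 ()) (z 1 ()) l =
          (if pat r 0 7 l = 0 then z 0 () else z 1 ()) := by
        intro l
        have h3 := pat_map (fun n : ℕ => if n = 0 then z 0 () else z 1 ()) r 0 7 l
        simp only [if_true, show (7 : ℕ) ≠ 0 by decide, if_false] at h3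
        exact h3.symm
      have hv : ∀ l, pat r (0 : ℕ) 7 l = 0 ∨ pat r (0 : ℕ) 7 l = 7 := by
        intro l
        fin_cases r <;> fin_cases l <;> simp [pat]
      rw [hp, hp]
      rcases hv l with h4 | h4 <;> rcases hv l' with h5 | h5 <;> rw [h4, h5]
      · simp
      · simp only [if_true, show (7 : ℕ) ≠ 0 by decide, if_false]
        refine ⟨fun h6 => absurd h6 (by decide), fun _ => ⟨e1, ?_⟩⟩
        rw [e2, t0, t1]
      · simp
      · simp
    · rw [pat_map B.vt, t0, t1]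
  rw [← h1 (pat r 0 7) (pat r s s') _ (key r).1 (key r).2,
    ← h1 (pat 0 0 7) (pat 0 s s') _ (key 0).1 (key 0).2, hE r]

end Pool.Agent.H50.SO
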