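import Pool.Agent.H1.SO.STR
import Pool.Agent.H11.SO.COL
import Pool.Agent.H11.SO.HH0
import Pool.Agent.H12.SO.NEE
import Pool.Agent.H13.SO.NCT
import Pool.Agent.H16.SO.PRM
import Pool.Agent.H21.EQ.CNG
import Pool.Agent.H35.SO.SYS
import Pool.Agent.H36.SO.MAX
import Pool.Agent.H36.SO.SUB
import Pool.Agent.H37.SO.ORDV
import Pool.Agent.H42.SO.CFG
import Pool.Agent.H42.SO.SCF
import Pool.Agent.H44.SO.All
import Pool.Agent.H44.SO.PA
import Pool.Agent.H47.SO.BLD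
import Pool.Agent.H49.SO.UMB
import Pool.Agent.H50.SO.Fin
import Pool.Agent.H50.SO.TYB
import Pool.Agent.H52.SO.RLZ
import Pool.Agent.H52.SO.UMC
import Pool.Agent.H55.SO.EXT
import Pool.Agent.H58.SO.AsmA
import Pool.Agent.H60.SO.SHP
import Pool.Agent.H68.GC.POW
import Pool.Agent.H68.SO.SCP
import Pool.Agent.H70.SO.UKM
import Pool.Agent.H78.SO.PRE
import Pool.Agent.H81.SO.STN
import Pool.Agent.H96.SO.HTR
import Pool.Agent.H98.SO.CCL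

/-!
# Structures with free amalgamation in a finite language of arity at most two: the theorem
-/

set_option autoImplicit false

namespace Pool.Agent.H50.SO

open Pool.Agent.H68.BP Pool.Agent.H58.SF Pool.Agent.H53.GC Pool.Agent.H53.NR
open Pool.Agent.H58.SO

theorem v_SYS : T_SYS := Pool.Agent.H35.SO.pf_SYS

theorem v_CFG : T_CFG := Pool.Agent.H42.SO.pf_CFG

theorem v_SCF : T_SCF := Pool.Agent.H42.SO.pf_SCF v_SYS

theorem v_TYB : T_TYB := pf_TYB v_SCF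

theorem v_RLZ : T_RLZ := Pool.Agent.H52.SO.pf_RLZ v_CFG

theorem v_EXT : T_EXT := Pool.Agent.H55.SO.pf_EXT v_RLZ

theorem v_UMB : T_UMB := Pool.Agent.H49.SO.pf_UMB

theorem v_UMC : T_UMC := Pool.Agent.H52.SO.pf_UMC v_UMB

theorem v_COL : Pool.Agent.H58.SO.T_COL := Pool.Agent.H11.SO.pf_COL v_CFG v_UMB

theorem v_UKM : T_UKM :=
  Pool.Agent.H70.SO.pf_UKM v_SCF Pool.Agent.H68.SO.SCP.pf_SCP Pool.Agent.H98.SO.pf_CCL v_EXT v_UMB
    v_TYB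

theorem v_HH0 : T_HH0 := Pool.Agent.H11.SO.pf_HH0 Pool.Agent.H68.GC.pf_POW Pool.Agent.H21.EQ.pf_CNG

theorem v_STR : T_STR := Pool.Agent.H1.SO.pf_STR v_UMB v_UMC Pool.Agent.H36.SO.pf_SUB

theorem v_STC : T_STC :=
  asm_STC (Pool.Agent.H60.SO.pf_SHP v_COL (Pool.Agent.H37.SO.pf_ORD v_SYS) v_UMB)
    Pool.Agent.H36.SO.pf_MAX (Pool.Agent.H12.SO.pf_NEE v_UMB v_UMC v_COL)
    (Pool.Agent.H78.SO.pf_PRE v_RLZ) (Pool.Agent.H47.SO.pf_BLD v_SYS)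

theorem v_STN : T_STN :=
  Pool.Agent.H81.SO.pf_STN v_UKM (Pool.Agent.H16.SO.pf_PRM v_UKM) v_UMB v_UMC v_TYB

theorem v_NCT : T_NCT := Pool.Agent.H13.SO.NCT.pf_NCT v_CFG v_EXT v_UKM

theorem v_HTR : T_HTR := Pool.Agent.H96.SO.pf_HTR v_RLZ

theorem v_PA : Pool.Agent.H57.SO.T_PA :=
  Pool.Agent.H44.SO.PA.glue_PA Pool.Agent.H44.SO.all_SYN Pool.Agent.H44.SO.all_CAN v_HH0 v_STR v_STC
    v_STN v_EXT v_NCT v_HTR

/-- The theorem for the first-order reducts of structures with free amalgamation in a finite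
language of arity at most two. -/
theorem final :
    ∀ (τ σ : Sig) (B : Type) [Countable B] [Nonempty B] (𝔹 : Str τ B) (𝔸 : Str σ B),
      (∀ l, 1 ≤ τ.ar l ∧ τ.ar l ≤ 2) → Homogeneous 𝔹 → FinitelyBounded 𝔹 → FreeAmalgamation 𝔹 →
      (∀ g : B ≃ B, IsAut 𝔹 g → IsAut 𝔸 g) →
      PPConstructsK3 𝔸 ∨ ∃ (σ' : Sig) (Y : Type) (_ : Finite Y) (𝕋 : Str σ' Y),
        ¬ PPConstructsK3 𝕋 ∧ N793a5b8e.ManyOneReducible (CSP 𝔸) (CSP 𝕋) :=
  fin_result v_PA Pool.Agent.H44.SO.all_KER Pool.Agent.H44.SO.all_INJ2 Pool.Agent.H44.SO.all_CAB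

end Pool.Agent.H50.SO
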